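import Mathlib

/-!
# Nilpotent nonassociative algebras are finitely based

For a field `K` let `FA K` be the free nonassociative `K`-algebra on `ℕ`.  An identity of a
nonassociative `K`-algebra `B` is an element of `FA K` killed by all homomorphisms `FA K → B`.
`FinitelyBased K B` says that finitely many identities of `B` generate all identities of `B` as a
T-ideal.  We prove that every algebra in which all long products vanish is finitely based.
-/

namespace Pool.Agent.Lib.MP_cad252_al.H89

open FreeNonUnitalNonAssocAlgebra

universe u v w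

/-- The free (nonunital) nonassociative algebra over `K` on countably many generators. -/
abbrev FA (K : Type u) [Field K] : Type u := FreeNonUnitalNonAssocAlgebra K ℕ

section Defs

variable (K : Type u) [Field K]

/-- A T-ideal of `FA K`: a subspace which is a two-sided ideal and is closed under all
substitutions of elements of `FA K` for the generators. -/
structure IsTIdeal (I : Submodule K (FA K)) : Prop where
  mul_left : ∀ g : FA K, ∀ f ∈ I, g * f ∈ I
  mul_right : ∀ g : FA K, ∀ f ∈ I, f * g ∈ I
  subst : ∀ σ : ℕ → FA K, ∀ f ∈ I, lift K σ f ∈ I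

variable (B : Type v) [NonUnitalNonAssocRing B] [Module K B] [IsScalarTower K B B]
  [SMulCommClass K B B]

/-- `f` is an identity of the algebra `B`: it vanishes under every substitution of elements of `B`
for the generators. -/
def Satisfies (f : FA K) : Prop := ∀ s : ℕ → B, lift K s f = 0

/-- The algebra `B` is finitely based: there is a finite set `S` of identities of `B` such that
every T-ideal which contains `S` contains all identities of `B`. -/
def FinitelyBased : Prop :=
  ∃ S : Finset (FA K), (∀ f ∈ S, Satisfies K B f) ∧
    ∀ I : Submodule K (FA K), IsTIdeal K I → (∀ f ∈ S, f ∈ I) → ∀ f, Satisfies K B f → f ∈ I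

/-- The subspace of all identities of `B`. -/
def identities : Submodule K (FA K) where
  carrier := {f | Satisfies K B f}
  add_mem' := fun {a b} ha hb s => by rw [map_add, ha s, hb s, add_zero]
  zero_mem' := fun s => map_zero _
  smul_mem' := fun c x hx s => by rw [map_smul, hx s, smul_zero]

theorem mem_identities {f : FA K} : f ∈ identities K B ↔ Satisfies K B f := Iff.rfl

theorem isTIdeal_identities : IsTIdeal K (identities K B) where
  mul_left := fun g f hf s => by rw [map_mul, hf s, mul_zero]
  mul_right := fun g f hf s => by rw [map_mul, hf s, zero_mul]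
  subst := fun σ f hf s => by
    have h : lift K s (lift K σ f) = lift K (fun i => lift K s (σ i)) f := by
      have h2 : ((lift K s).comp (lift K σ)) = lift K (fun i => lift K s (σ i)) := by
        apply FreeNonUnitalNonAssocAlgebra.hom_ext
        intro x
        simp
      rw [← h2]; rfl
    rw [h]
    exact hf _

/-- If `B` is finitely based then there are finitely many identities of `B` such that an arbitrary
algebra `C` (in any universe) that satisfies them satisfies all the identities of `B`. -/
theorem FinitelyBased.semantic (h : FinitelyBased K B) :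
    ∃ S : Finset (FA K), (∀ f ∈ S, Satisfies K B f) ∧
      ∀ (C : Type w) [NonUnitalNonAssocRing C] [Module K C] [IsScalarTower K C C]
        [SMulCommClass K C C], (∀ f ∈ S, Satisfies K C f) → ∀ f, Satisfies K B f →
        Satisfies K C f := by
  obtain ⟨S, hS, hT⟩ := h
  refine ⟨S, hS, ?_⟩
  intro C _ _ _ _ hC f hf
  exact hT (identities K C) (isTIdeal_identities K C) hC f hf

end Defs

/-! ### Monomials -/

section Monomials

variable (K : Type u) [Field K]

/-- The monomial attached to a nonassociative word. -/
noncomputable def mon (m : FreeMagma ℕ) : FA K := MonoidAlgebra.single m 1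

theorem mon_mul (a b : FreeMagma ℕ) : mon K (a * b) = mon K a * mon K b := by
  simp [mon, MonoidAlgebra.single_mul_single]

theorem mon_of (x : ℕ) : mon K (FreeMagma.of x) = of K x := rfl

/-- Evaluation of a nonassociative word. -/
def ev {A : Type w} [Mul A] (s : ℕ → A) : FreeMagma ℕ → A
  | FreeMagma.of x => s x
  | FreeMagma.mul a b => ev s a * ev s b

theorem ev_of {A : Type w} [Mul A] (s : ℕ → A) (x : ℕ) : ev s (FreeMagma.of x) = s x := rfl

theorem ev_mul {A : Type w} [Mul A] (s : ℕ → A) (a b : FreeMagma ℕ) :
    ev s (a * b) = ev s a * ev s b := rfl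

/-- The variables of a word. -/
def wvars : FreeMagma ℕ → Finset ℕ
  | FreeMagma.of x => {x}
  | FreeMagma.mul a b => wvars a ∪ wvars b

theorem wvars_of (x : ℕ) : wvars (FreeMagma.of x) = {x} := rfl

theorem wvars_mul (a b : FreeMagma ℕ) : wvars (a * b) = wvars a ∪ wvars b := rfl

theorem length_of (x : ℕ) : (FreeMagma.of x).length = 1 := rfl

theorem length_mul (a b : FreeMagma ℕ) : (a * b).length = a.length + b.length := rfl

theorem card_wvars_le (m : FreeMagma ℕ) : (wvars m).card ≤ m.length := by
  induction m with
  | ih1 x => simp [wvars_of]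
  | ih2 a b ha hb =>
    rw [wvars_mul, length_mul]
    exact (Finset.card_union_le _ _).trans (by omega)

theorem ev_congr {A : Type w} [Mul A] {s t : ℕ → A} (m : FreeMagma ℕ)
    (h : ∀ x ∈ wvars m, s x = t x) : ev s m = ev t m := by
  induction m with
  | ih1 x => exact h x (by simp [wvars_of])
  | ih2 a b ha hb =>
    rw [ev_mul, ev_mul, ha (fun x hx => h x (by rw [wvars_mul]; exact Finset.mem_union_left _ hx)),
      hb (fun x hx => h x (by rw [wvars_mul]; exact Finset.mem_union_right _ hx))]

theorem ev_of_self (m : FreeMagma ℕ) : ev (fun x => of K x) m = mon K m := by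
  induction m with
  | ih1 x => rfl
  | ih2 a b ha hb => rw [ev_mul, mon_mul, ha, hb]

/-- Renaming of variables in words. -/
def rename (σ : ℕ → ℕ) (m : FreeMagma ℕ) : FreeMagma ℕ := ev (fun x => FreeMagma.of (σ x)) m

theorem rename_of (σ : ℕ → ℕ) (x : ℕ) : rename σ (FreeMagma.of x) = FreeMagma.of (σ x) := rfl

theorem rename_mul (σ : ℕ → ℕ) (a b : FreeMagma ℕ) :
    rename σ (a * b) = rename σ a * rename σ b := rfl

theorem length_rename (σ : ℕ → ℕ) (m : FreeMagma ℕ) : (rename σ m).length = m.length := by
  induction m with
  | ih1 x => rfl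
  | ih2 a b ha hb => rw [rename_mul, length_mul, length_mul, ha, hb]

theorem wvars_rename (σ : ℕ → ℕ) (m : FreeMagma ℕ) :
    wvars (rename σ m) = (wvars m).image σ := by
  induction m with
  | ih1 x => simp [rename_of, wvars_of]
  | ih2 a b ha hb => rw [rename_mul, wvars_mul, wvars_mul, ha, hb, Finset.image_union]

theorem rename_rename (σ τ : ℕ → ℕ) (m : FreeMagma ℕ) (h : ∀ x ∈ wvars m, τ (σ x) = x) :
    rename τ (rename σ m) = m := by
  induction m with
  | ih1 x => rw [rename_of, rename_of, h x (by simp [wvars_of])]
  | ih2 a b ha hb =>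
    rw [rename_mul, rename_mul, ha (fun x hx => h x (by rw [wvars_mul]; exact Finset.mem_union_left _ hx)),
      hb (fun x hx => h x (by rw [wvars_mul]; exact Finset.mem_union_right _ hx))]

theorem ev_rename (σ : ℕ → ℕ) (m : FreeMagma ℕ) :
    ev (fun x => of K (σ x)) m = mon K (rename σ m) := by
  induction m with
  | ih1 x => rfl
  | ih2 a b ha hb => rw [ev_mul, rename_mul, mon_mul, ha, hb]

theorem lift_mon {B : Type v} [NonUnitalNonAssocRing B] [Module K B] [IsScalarTower K B B]
    [SMulCommClass K B B] (s : ℕ → B) (m : FreeMagma ℕ) : lift K s (mon K m) = ev s m := by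
  induction m with
  | ih1 x => rw [mon_of, lift_of_apply]; rfl
  | ih2 a b ha hb => rw [mon_mul, map_mul, ha, hb]; rfl

/-- Every element is the linear combination of its monomials. -/
theorem eq_sum (f : FA K) : f = ∑ m ∈ f.coeff.support, f.coeff m • mon K m := by
  conv_lhs => rw [← MonoidAlgebra.sum_coeff_single f]
  rw [Finsupp.sum]
  refine Finset.sum_congr rfl fun m _ => ?_
  rw [mon, MonoidAlgebra.smul_single, smul_eq_mul, mul_one]

end Monomials

/-! ### Homogeneous parts with respect to the set of variables -/

section Parts

variable (K : Type u) [Field K]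

/-- The part of `f` consisting of the monomials whose set of variables is exactly `J`. -/
noncomputable def part (J : Finset ℕ) (f : FA K) : FA K :=
  ∑ m ∈ f.coeff.support, if wvars m = J then f.coeff m • mon K m else 0

/-- The substitution that puts the variables outside `J` equal to `0`. -/
noncomputable def killOut (J : Finset ℕ) : ℕ → FA K := fun x => if x ∈ J then of K x else 0

theorem ev_killOut (J : Finset ℕ) (m : FreeMagma ℕ) :
    ev (killOut K J) m = if wvars m ⊆ J then mon K m else 0 := by
  induction m with
  | ih1 x =>
    rw [ev_of, wvars_of, killOut]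
    simp only [Finset.singleton_subset_iff]
    rfl
  | ih2 a b ha hb =>
    rw [ev_mul, ha, hb, wvars_mul]
    by_cases h1 : wvars a ⊆ J
    · by_cases h2 : wvars b ⊆ J
      · rw [if_pos h1, if_pos h2, if_pos (Finset.union_subset h1 h2), mon_mul]
      · rw [if_neg h2, mul_zero, if_neg (fun h => h2 (Finset.union_subset_right h))]
    · rw [if_neg h1, zero_mul, if_neg (fun h => h1 (Finset.union_subset_left h))]

theorem lift_killOut (J : Finset ℕ) (f : FA K) :
    lift K (killOut K J) f = ∑ J' ∈ J.powerset, part K J' f := by
  have h1 : lift K (killOut K J) f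
      = ∑ m ∈ f.coeff.support, if wvars m ⊆ J then f.coeff m • mon K m else 0 := by
    conv_lhs => rw [eq_sum K f]
    rw [map_sum]
    refine Finset.sum_congr rfl fun m _ => ?_
    rw [map_smul, lift_mon, ev_killOut, smul_ite, smul_zero]
  rw [h1]
  unfold part
  rw [Finset.sum_comm]
  refine Finset.sum_congr rfl fun m _ => ?_
  rw [Finset.sum_ite_eq]
  simp only [Finset.mem_powerset]

theorem part_mem (I : Submodule K (FA K)) (hI : IsTIdeal K I) (f : FA K) (hf : f ∈ I)
    (J : Finset ℕ) : part K J f ∈ I := by
  induction J using Finset.strongInduction with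
  | H J ih =>
    have h1 : lift K (killOut K J) f ∈ I := hI.subst _ _ hf
    rw [lift_killOut] at h1
    have h2 : J.powerset = insert J J.ssubsets := by
      ext T
      simp only [Finset.mem_powerset, Finset.mem_insert, Finset.mem_ssubsets]
      constructor
      · intro h
        rcases eq_or_ne T J with h3 | h3
        · exact Or.inl h3
        · exact Or.inr (Finset.ssubset_iff_subset_ne.2 ⟨h, h3⟩)
      · rintro (h | h)
        · rw [h]
        · exact h.1
    rw [h2, Finset.sum_insert (by simp)] at h1
    have h3 : ∑ J' ∈ J.ssubsets, part K J' f ∈ I :=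
      Submodule.sum_mem _ fun J' hJ' => ih J' (Finset.mem_ssubsets.1 hJ')
    have h4 := Submodule.sub_mem _ h1 h3
    simpa using h4

theorem eq_sum_part (f : FA K) :
    f = ∑ J ∈ f.coeff.support.image wvars, part K J f := by
  conv_lhs => rw [eq_sum K f]
  unfold part
  rw [Finset.sum_comm]
  refine Finset.sum_congr rfl fun m hm => ?_
  rw [Finset.sum_ite_eq, if_pos (Finset.mem_image_of_mem _ hm)]

end Parts

/-! ### Words of bounded length in finitely many letters -/

section FiniteWords

/-- Words of length at most `n` in the letters `< N`. -/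
def words (N n : ℕ) : Set (FreeMagma ℕ) := {m | m.length ≤ n ∧ wvars m ⊆ Finset.range N}

theorem finite_words (N n : ℕ) : (words N n).Finite := by
  induction n with
  | zero =>
    refine Set.Finite.subset Set.finite_empty ?_
    rintro m ⟨hm, -⟩
    have := m.length_pos
    omega
  | succ n ih =>
    refine Set.Finite.subset
      ((((Finset.range N).finite_toSet).image FreeMagma.of).union (ih.image2 (· * ·) ih)) ?_
    rintro m ⟨hm, hv⟩
    induction m with
    | ih1 x =>
      left
      exact ⟨x, hv (by simp [wvars_of]), rfl⟩
    | ih2 a b _ _ =>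
      right
      rw [length_mul] at hm
      rw [wvars_mul] at hv
      have ha := a.length_pos
      have hb := b.length_pos
      exact ⟨a, ⟨by omega, Finset.union_subset_left hv⟩, b,
        ⟨by omega, Finset.union_subset_right hv⟩, rfl⟩

end FiniteWords

section Main

variable (K : Type u) [Field K]

/-- Span of the words of length at most `N` in the letters `< N`. -/
noncomputable def V (N : ℕ) : Submodule K (FA K) := Submodule.span K (mon K '' words N N)

theorem finiteDimensional_V (N : ℕ) : FiniteDimensional K (V K N) :=
  FiniteDimensional.span_of_finite K ((finite_words N N).image _)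

/-- A renaming of a finite set of at most `N` letters into letters `< N`, with an inverse. -/
theorem exists_renaming (J : Finset ℕ) (N : ℕ) (h : J.card ≤ N) :
    ∃ σ τ : ℕ → ℕ, ∀ x ∈ J, σ x < N ∧ τ (σ x) = x := by
  classical
  let e := J.equivFin
  refine ⟨fun x => if hx : x ∈ J then (e ⟨x, hx⟩ : ℕ) else 0,
    fun j => if hj : j < J.card then (e.symm ⟨j, hj⟩ : ℕ) else 0, ?_⟩
  intro x hx
  have h1 : (e ⟨x, hx⟩ : ℕ) < J.card := (e ⟨x, hx⟩).2
  constructor
  · simp only [dif_pos hx]; omega
  · simp only [dif_pos hx, dif_pos h1]
    simp

theorem lemmaA (B : Type v) [NonUnitalNonAssocRing B] [Module K B] [IsScalarTower K B B]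
    [SMulCommClass K B B] (N : ℕ) (I : Submodule K (FA K)) (hI : IsTIdeal K I)
    (hV : V K N ⊓ identities K B ≤ I) (f : FA K) (hf : f ∈ identities K B)
    (hlen : ∀ m ∈ f.coeff.support, m.length ≤ N) : f ∈ I := by
  rw [eq_sum_part K f]
  refine Submodule.sum_mem _ fun J _ => ?_
  have hid := part_mem K _ (isTIdeal_identities K B) f hf J
  by_cases hJ : J.card ≤ N
  · obtain ⟨σ, τ, hστ⟩ := exists_renaming J N hJ
    set g : FA K := lift K (fun x => of K (σ x)) (part K J f) with hg
    have hg1 : g ∈ identities K B := (isTIdeal_identities K B).subst _ _ hid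
    have hg' : g = ∑ m ∈ f.coeff.support,
        if wvars m = J then f.coeff m • mon K (rename σ m) else 0 := by
      rw [hg, part, map_sum]
      refine Finset.sum_congr rfl fun m _ => ?_
      by_cases hm : wvars m = J
      · rw [if_pos hm, if_pos hm, map_smul, lift_mon, ev_rename]
      · rw [if_neg hm, if_neg hm, map_zero]
    have hg2 : g ∈ V K N := by
      rw [hg']
      refine Submodule.sum_mem _ fun m hm => ?_
      by_cases hm2 : wvars m = J
      · rw [if_pos hm2]
        refine Submodule.smul_mem _ _ (Submodule.subset_span ⟨rename σ m, ⟨?_, ?_⟩, rfl⟩)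
        · rw [length_rename]; exact hlen m hm
        · rw [wvars_rename, hm2]
          intro y hy
          obtain ⟨x, hx, rfl⟩ := Finset.mem_image.1 hy
          exact Finset.mem_range.2 (hστ x hx).1
      · rw [if_neg hm2]; exact Submodule.zero_mem _
    have hg3 : g ∈ I := hV ⟨hg2, hg1⟩
    have hg4 : lift K (fun x => of K (τ x)) g = part K J f := by
      rw [hg', map_sum, part]
      refine Finset.sum_congr rfl fun m _ => ?_
      by_cases hm : wvars m = J
      · rw [if_pos hm, if_pos hm, map_smul, lift_mon, ev_rename,
          rename_rename σ τ m (fun x hx => (hστ x (hm ▸ hx)).2)]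
      · rw [if_neg hm, if_neg hm, map_zero]
    rw [← hg4]
    exact hI.subst _ _ hg3
  · have : part K J f = 0 := by
      unfold part
      refine Finset.sum_eq_zero fun m hm => ?_
      rw [if_neg]
      intro h
      have h1 := card_wvars_le m
      have h2 := hlen m hm
      rw [h] at h1
      omega
    rw [this]
    exact Submodule.zero_mem _

/-- An algebra in which all products of more than `c` factors vanish is finitely based. -/
theorem finitelyBased_of_nilpotent (B : Type v) [NonUnitalNonAssocRing B] [Module K B]
    [IsScalarTower K B B] [SMulCommClass K B B] (c : ℕ)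
    (hnil : ∀ m : FreeMagma ℕ, c < m.length → ∀ s : ℕ → B, ev s m = 0) :
    FinitelyBased K B := by
  classical
  set N := 2 * c + 1 with hN
  have hmon : ∀ m : FreeMagma ℕ, c < m.length → mon K m ∈ identities K B := by
    intro m hm s
    rw [lift_mon]
    exact hnil m hm s
  have : FiniteDimensional K (V K N) := finiteDimensional_V K N
  have : FiniteDimensional K ↥(V K N ⊓ identities K B) :=
    Submodule.finiteDimensional_of_le inf_le_left
  obtain ⟨S, hS⟩ : (V K N ⊓ identities K B).FG :=
    (Submodule.fg_iff_finiteDimensional _).2 inferInstance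
  refine ⟨S, ?_, ?_⟩
  · intro f hf
    have : f ∈ V K N ⊓ identities K B := by rw [← hS]; exact Submodule.subset_span hf
    exact this.2
  · intro I hI hSI f hf
    have hV : V K N ⊓ identities K B ≤ I := by
      rw [← hS]
      exact Submodule.span_le.2 hSI
    have hC : ∀ m : FreeMagma ℕ, c < m.length → mon K m ∈ I := by
      intro m
      induction m with
      | ih1 x =>
        intro hm
        refine lemmaA K B N I hI hV _ (hmon _ hm) ?_
        intro m' hm'
        have h2 : m' = FreeMagma.of x := by
          have h3 := Finsupp.support_single_subset hm'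
          simpa using h3
        rw [h2, length_of]; omega
      | ih2 a b iha ihb =>
        intro hm
        by_cases hle : (a * b).length ≤ N
        · refine lemmaA K B N I hI hV _ (hmon _ hm) ?_
          intro m' hm'
          have h2 : m' = a * b := by
            have h3 := Finsupp.support_single_subset hm'
            simpa using h3
          rw [h2]; exact hle
        · rw [mon_mul]
          rw [length_mul] at hle
          by_cases ha : c < a.length
          · exact hI.mul_right _ _ (iha ha)
          · exact hI.mul_left _ _ (ihb (by omega))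
    set fh : FA K := ∑ m ∈ f.coeff.support, if c < m.length then f.coeff m • mon K m else 0
      with hfh
    set fl : FA K := ∑ m ∈ f.coeff.support, if c < m.length then 0 else f.coeff m • mon K m
      with hfl
    have hsum : f = fl + fh := by
      rw [hfh, hfl, ← Finset.sum_add_distrib]
      conv_lhs => rw [eq_sum K f]
      refine Finset.sum_congr rfl fun m _ => ?_
      by_cases hm : c < m.length
      · rw [if_pos hm, if_pos hm, zero_add]
      · rw [if_neg hm, if_neg hm, add_zero]
    have hfhI : fh ∈ I := by
      refine Submodule.sum_mem _ fun m _ => ?_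
      by_cases hm : c < m.length
      · rw [if_pos hm]; exact Submodule.smul_mem _ _ (hC m hm)
      · rw [if_neg hm]; exact Submodule.zero_mem _
    have hfhid : fh ∈ identities K B := by
      refine Submodule.sum_mem _ fun m _ => ?_
      by_cases hm : c < m.length
      · rw [if_pos hm]; exact Submodule.smul_mem _ _ (hmon m hm)
      · rw [if_neg hm]; exact Submodule.zero_mem _
    have hflid : fl ∈ identities K B := by
      have h1 : fl = f - fh := by rw [hsum]; simp
      rw [h1]
      exact Submodule.sub_mem _ hf hfhid
    have hflI : fl ∈ I := by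
      refine lemmaA K B N I hI hV fl hflid ?_
      intro m hm
      by_contra hlt
      have hne : fl.coeff m ≠ 0 := Finsupp.mem_support_iff.1 hm
      apply hne
      rw [hfl, MonoidAlgebra.coeff_sum, Finsupp.finsetSum_apply]
      refine Finset.sum_eq_zero fun m' _ => ?_
      by_cases hm' : c < m'.length
      · rw [if_pos hm']; rfl
      · rw [if_neg hm']
        have hne' : m' ≠ m := by rintro rfl; omega
        rw [mon, MonoidAlgebra.smul_single, MonoidAlgebra.coeff_single,
          Finsupp.single_eq_of_ne (Ne.symm hne')]
    rw [hsum]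
    exact Submodule.add_mem _ hflI hfhI

/-- Products of at least four factors vanish as soon as the five bracketings of four factors
vanish (here: `B` with `((uv)w)z = 0`, `(u(vw))z = 0`, `u((vw)z) = 0`, `u(v(wz)) = 0`,
`(uv)(wz) = 0`). -/
theorem ev_eq_zero_of_four {B : Type v} [NonUnitalNonAssocRing B]
    (h1 : ∀ u v w z : B, ((u * v) * w) * z = 0) (h2 : ∀ u v w z : B, (u * (v * w)) * z = 0)
    (h3 : ∀ u v w z : B, u * ((v * w) * z) = 0) (h4 : ∀ u v w z : B, u * (v * (w * z)) = 0)
    (h5 : ∀ u v w z : B, (u * v) * (w * z) = 0) (m : FreeMagma ℕ) (hm : 3 < m.length)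
    (s : ℕ → B) : ev s m = 0 := by
  -- a word of length ≥ 3 is `x y` with `x` or `y` a product
  have key3 : ∀ m : FreeMagma ℕ, 2 ≤ m.length → ∃ x y : B, ev s m = x * y := by
    intro m hm
    induction m with
    | ih1 x => rw [length_of] at hm; omega
    | ih2 a b _ _ => exact ⟨ev s a, ev s b, rfl⟩
  have key4 : ∀ m : FreeMagma ℕ, 3 ≤ m.length →
      (∃ x y z : B, ev s m = (x * y) * z) ∨ (∃ x y z : B, ev s m = x * (y * z)) := by
    intro m hm
    induction m with
    | ih1 x => rw [length_of] at hm; omega
    | ih2 a b _ _ =>
      rw [length_mul] at hm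
      by_cases ha : 2 ≤ a.length
      · obtain ⟨x, y, hxy⟩ := key3 a ha
        left
        exact ⟨x, y, ev s b, by rw [ev_mul, hxy]⟩
      · obtain ⟨x, y, hxy⟩ := key3 b (by omega)
        right
        exact ⟨ev s a, x, y, by rw [ev_mul, hxy]⟩
  induction m with
  | ih1 x => rw [length_of] at hm; omega
  | ih2 a b _ _ =>
    rw [length_mul] at hm
    rw [ev_mul]
    by_cases ha3 : 3 ≤ a.length
    · rcases key4 a ha3 with ⟨x, y, z, h⟩ | ⟨x, y, z, h⟩
      · rw [h, h1]
      · rw [h, h2]
    · by_cases hb3 : 3 ≤ b.length
      · rcases key4 b hb3 with ⟨x, y, z, h⟩ | ⟨x, y, z, h⟩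
        · rw [h, h3]
        · rw [h, h4]
      · obtain ⟨x, y, hxy⟩ := key3 a (by omega)
        obtain ⟨z, t, hzt⟩ := key3 b (by omega)
        rw [hxy, hzt, h5]

/-- The version used for Jacobian ideals: an anticommutative algebra with `((uv)w)z = 0` and
`(uv)(wz) = 0` is finitely based. -/
theorem finitelyBased_of_class_three (B : Type v) [NonUnitalNonAssocRing B] [Module K B]
    [IsScalarTower K B B] [SMulCommClass K B B] (hsq : ∀ u : B, u * u = 0)
    (h1 : ∀ u v w z : B, ((u * v) * w) * z = 0) (h2 : ∀ u v w z : B, (u * v) * (w * z) = 0) :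
    FinitelyBased K B := by
  have hac : ∀ u v : B, u * v = -(v * u) := by
    intro u v
    have h := hsq (u + v)
    rw [add_mul, mul_add, mul_add, hsq, hsq, zero_add, add_zero] at h
    exact eq_neg_of_add_eq_zero_left h
  refine finitelyBased_of_nilpotent K B 3 ?_
  intro m hm s
  refine ev_eq_zero_of_four h1 ?_ ?_ ?_ h2 m hm s
  · intro u v w z
    rw [hac u, neg_mul, h1, neg_zero]
  · intro u v w z
    rw [hac u, h1, neg_zero]
  · intro u v w z
    rw [hac u, hac v, neg_mul, h1, neg_zero, neg_zero]

end Main

end Pool.Agent.Lib.MP_cad252_al.H89
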