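import Mathlib
import Pool.Agent.Lib.MP_cad252_al.H89.FiniteBasis

/-!
# Malcev algebras, free Malcev algebras and the Jacobian ideal

* `Jac x y z = (x * y) * z + (y * z) * x + (z * x) * y`;
* `IsMalcev A`: `x * x = 0` and `Jac x y (x * z) = Jac x y z * x`;
* `FreeMalcev K X`: the free Malcev algebra over the field `K` on the set `X`, constructed as the
  quotient of the free nonassociative algebra, with its universal property
  (`FreeMalcev.exists_unique_lift`);
* `jacobianIdeal K A`: the two-sided ideal of `A` generated by all Jacobians, as a subalgebra.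
-/

namespace Pool.Agent.Lib.MP_cad252_al.H89

universe u v w

/-- The Jacobian `J(x,y,z) = (xy)z + (yz)x + (zx)y`. -/
def Jac {A : Type v} [NonUnitalNonAssocRing A] (x y z : A) : A :=
  (x * y) * z + (y * z) * x + (z * x) * y

/-- Malcev algebras (rings): anticommutative (`x² = 0`) with `J(x,y,xz) = J(x,y,z)x`. -/
structure IsMalcev (A : Type v) [NonUnitalNonAssocRing A] : Prop where
  sq : ∀ x : A, x * x = 0
  malcev : ∀ x y z : A, Jac x y (x * z) = Jac x y z * x

section FreeMalcev

variable (K : Type u) [Field K] (X : Type v)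

/-- The free nonassociative algebra over `K` on `X`. -/
abbrev Fr (K : Type u) [Field K] (X : Type v) : Type (max u v) :=
  FreeNonUnitalNonAssocAlgebra K X

/-- The congruence on the free nonassociative algebra generated by the Malcev identities. -/
inductive FreeMalcev.Rel : Fr K X → Fr K X → Prop
  | sq (a : Fr K X) : Rel (a * a) 0
  | malcev (a b c : Fr K X) : Rel (Jac a b (a * c)) (Jac a b c * a)
  | smul (t : K) {a b : Fr K X} : Rel a b → Rel (t • a) (t • b)
  | add_right {a b : Fr K X} (c : Fr K X) : Rel a b → Rel (a + c) (b + c)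
  | mul_left (a : Fr K X) {b c : Fr K X} : Rel b c → Rel (a * b) (a * c)
  | mul_right {a b : Fr K X} (c : Fr K X) : Rel a b → Rel (a * c) (b * c)

/-- The free Malcev algebra over the field `K` on the set `X`. -/
def FreeMalcev : Type (max u v) := Quot (FreeMalcev.Rel K X)

namespace FreeMalcev

variable {K X}

theorem Rel.addLeft (a : Fr K X) {b c : Fr K X} (h : Rel K X b c) : Rel K X (a + b) (a + c) := by
  rw [add_comm _ b, add_comm _ c]; exact h.add_right _

theorem Rel.neg {a b : Fr K X} (h : Rel K X a b) : Rel K X (-a) (-b) := by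
  simpa only [neg_one_smul] using h.smul (-1)

theorem Rel.subLeft (a : Fr K X) {b c : Fr K X} (h : Rel K X b c) : Rel K X (a - b) (a - c) := by
  simpa only [sub_eq_add_neg] using h.neg.addLeft a

theorem Rel.subRight {a b : Fr K X} (c : Fr K X) (h : Rel K X a b) : Rel K X (a - c) (b - c) := by
  simpa only [sub_eq_add_neg] using h.add_right (-c)

theorem Rel.nsmul (n : ℕ) {a b : Fr K X} (h : Rel K X a b) : Rel K X (n • a) (n • b) := by
  rw [← Nat.cast_smul_eq_nsmul K, ← Nat.cast_smul_eq_nsmul K]
  exact h.smul _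

theorem Rel.zsmul (n : ℤ) {a b : Fr K X} (h : Rel K X a b) : Rel K X (n • a) (n • b) := by
  rw [← Int.cast_smul_eq_zsmul K, ← Int.cast_smul_eq_zsmul K]
  exact h.smul _

variable (K X)

noncomputable instance : Zero (FreeMalcev K X) where zero := Quot.mk _ 0

noncomputable instance : Add (FreeMalcev K X) where
  add := Quot.map₂ (· + ·) (fun _ _ _ => Rel.addLeft _) fun _ _ _ => Rel.add_right _

noncomputable instance : Neg (FreeMalcev K X) where neg := Quot.map Neg.neg fun _ _ => Rel.neg

noncomputable instance : Sub (FreeMalcev K X) where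
  sub := Quot.map₂ Sub.sub (fun _ _ _ => Rel.subLeft _) fun _ _ _ => Rel.subRight _

noncomputable instance : SMul K (FreeMalcev K X) where
  smul t := Quot.map (t • ·) fun _ _ => Rel.smul t

noncomputable instance : SMul ℕ (FreeMalcev K X) where
  smul n := Quot.map (n • ·) fun _ _ => Rel.nsmul n

noncomputable instance : SMul ℤ (FreeMalcev K X) where
  smul n := Quot.map (n • ·) fun _ _ => Rel.zsmul n

noncomputable instance : Mul (FreeMalcev K X) where
  mul := Quot.map₂ (· * ·) (fun _ _ _ => Rel.mul_left _) fun _ _ _ => Rel.mul_right _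

noncomputable instance : AddCommGroup (FreeMalcev K X) :=
  Function.Surjective.addCommGroup (Quot.mk _) Quot.mk_surjective rfl (fun _ _ => rfl)
    (fun _ => rfl) (fun _ _ => rfl) (fun _ _ => rfl) fun _ _ => rfl

noncomputable instance : NonUnitalNonAssocRing (FreeMalcev K X) where
  left_distrib := by rintro ⟨a⟩ ⟨b⟩ ⟨c⟩; exact congrArg (Quot.mk _) (mul_add a b c)
  right_distrib := by rintro ⟨a⟩ ⟨b⟩ ⟨c⟩; exact congrArg (Quot.mk _) (add_mul a b c)
  zero_mul := by rintro ⟨a⟩; exact congrArg (Quot.mk _) (zero_mul a)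
  mul_zero := by rintro ⟨a⟩; exact congrArg (Quot.mk _) (mul_zero a)

noncomputable instance : Module K (FreeMalcev K X) :=
  Function.Surjective.module K ⟨⟨Quot.mk (Rel K X), rfl⟩, fun _ _ => rfl⟩
    Quot.mk_surjective (fun _ _ => rfl)

instance : IsScalarTower K (FreeMalcev K X) (FreeMalcev K X) where
  smul_assoc := by
    rintro t ⟨a⟩ ⟨b⟩
    exact congrArg (Quot.mk _) (smul_mul_assoc t a b)

instance : SMulCommClass K (FreeMalcev K X) (FreeMalcev K X) where
  smul_comm := by
    rintro t ⟨a⟩ ⟨b⟩
    exact congrArg (Quot.mk _) (mul_smul_comm t a b).symm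

theorem isMalcev : IsMalcev (FreeMalcev K X) where
  sq := by rintro ⟨a⟩; exact Quot.sound (Rel.sq a)
  malcev := by rintro ⟨a⟩ ⟨b⟩ ⟨c⟩; exact Quot.sound (Rel.malcev a b c)

variable {X}

/-- The generators of the free Malcev algebra. -/
noncomputable def of (x : X) : FreeMalcev K X :=
  Quot.mk _ (FreeNonUnitalNonAssocAlgebra.of K x)

variable (X)

/-- The projection from the free nonassociative algebra. -/
noncomputable def mk : Fr K X →ₙₐ[K] FreeMalcev K X where
  toFun := Quot.mk _
  map_smul' := fun _ _ => rfl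
  map_zero' := rfl
  map_add' := fun _ _ => rfl
  map_mul' := fun _ _ => rfl

variable {X} {M : Type w} [NonUnitalNonAssocRing M] [Module K M] [IsScalarTower K M M]
  [SMulCommClass K M M]

theorem map_Jac {A B : Type*} [NonUnitalNonAssocRing A] [Module K A]
    [NonUnitalNonAssocRing B] [Module K B]
    (φ : A →ₙₐ[K] B) (x y z : A) : φ (Jac x y z) = Jac (φ x) (φ y) (φ z) := by
  simp only [Jac, map_add, map_mul]

theorem liftAux_spec (hM : IsMalcev M) (f : X → M) (a b : Fr K X) (h : Rel K X a b) :
    FreeNonUnitalNonAssocAlgebra.lift K f a = FreeNonUnitalNonAssocAlgebra.lift K f b := by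
  induction h with
  | sq a => rw [map_mul, map_zero, hM.sq]
  | malcev a b c => rw [map_Jac, map_mul, map_mul, map_Jac, hM.malcev]
  | smul t _ ih => rw [map_smul, map_smul, ih]
  | add_right c _ ih => rw [map_add, map_add, ih]
  | mul_left a _ ih => rw [map_mul, map_mul, ih]
  | mul_right c _ ih => rw [map_mul, map_mul, ih]

/-- The universal property of `FreeMalcev K X`: a map from `X` to a Malcev algebra `M` over `K`
extends uniquely to a homomorphism `FreeMalcev K X → M`. -/
theorem exists_unique_lift (hM : IsMalcev M) (f : X → M) :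
    ∃! φ : FreeMalcev K X →ₙₐ[K] M, ∀ x, φ (of K x) = f x := by
  refine ⟨{ toFun := Quot.lift (FreeNonUnitalNonAssocAlgebra.lift K f) (liftAux_spec K hM f)
            map_smul' := by rintro t ⟨a⟩; exact map_smul (FreeNonUnitalNonAssocAlgebra.lift K f) t a
            map_zero' := map_zero (FreeNonUnitalNonAssocAlgebra.lift K f)
            map_add' := by
              rintro ⟨a⟩ ⟨b⟩; exact map_add (FreeNonUnitalNonAssocAlgebra.lift K f) a b
            map_mul' := by
              rintro ⟨a⟩ ⟨b⟩; exact map_mul (FreeNonUnitalNonAssocAlgebra.lift K f) a b }, ?_, ?_⟩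
  · intro x
    exact FreeNonUnitalNonAssocAlgebra.lift_of_apply K f x
  · intro ψ hψ
    have h : ψ.comp (mk K X) = FreeNonUnitalNonAssocAlgebra.lift K f := by
      apply FreeNonUnitalNonAssocAlgebra.hom_ext
      intro x
      rw [FreeNonUnitalNonAssocAlgebra.lift_of_apply]
      exact hψ x
    ext a
    obtain ⟨a, rfl⟩ := Quot.mk_surjective a
    exact DFunLike.congr_fun h a

end FreeMalcev

end FreeMalcev

section Jacobian

variable (K : Type u) [Field K] (A : Type v) [NonUnitalNonAssocRing A] [Module K A]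

/-- The smallest `K`-subspace of `A` which contains all Jacobians and is closed under left and
right multiplication by elements of `A`. -/
def jacobianSubspace : Submodule K A :=
  sInf {I : Submodule K A | (∀ x y z : A, Jac x y z ∈ I) ∧
    ∀ a : A, ∀ x ∈ I, a * x ∈ I ∧ x * a ∈ I}

theorem Jac_mem (x y z : A) : Jac x y z ∈ jacobianSubspace K A :=
  Submodule.mem_sInf.2 fun _ hI => hI.1 x y z

theorem mul_mem_left (a : A) {x : A} (hx : x ∈ jacobianSubspace K A) :
    a * x ∈ jacobianSubspace K A :=
  Submodule.mem_sInf.2 fun I hI => (hI.2 a x (Submodule.mem_sInf.1 hx I hI)).1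

theorem mul_mem_right (a : A) {x : A} (hx : x ∈ jacobianSubspace K A) :
    x * a ∈ jacobianSubspace K A :=
  Submodule.mem_sInf.2 fun I hI => (hI.2 a x (Submodule.mem_sInf.1 hx I hI)).2

theorem jacobianSubspace_le (I : Submodule K A) (h1 : ∀ x y z : A, Jac x y z ∈ I)
    (h2 : ∀ a : A, ∀ x ∈ I, a * x ∈ I ∧ x * a ∈ I) : jacobianSubspace K A ≤ I :=
  sInf_le ⟨h1, h2⟩

/-- The Jacobian ideal `J(A)`, the two-sided ideal generated by all Jacobians, regarded as an
algebra. -/
def jacobianIdeal : NonUnitalSubalgebra K A :=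
  { jacobianSubspace K A with
    mul_mem' := fun {_ b} ha _ => mul_mem_right K A b ha }

theorem mem_jacobianIdeal {x : A} : x ∈ jacobianIdeal K A ↔ x ∈ jacobianSubspace K A := Iff.rfl

variable [IsScalarTower K A A] [SMulCommClass K A A]

/-- If `A` is a Malcev algebra and all products of four factors in `J(A)` vanish, then `J(A)` is
finitely based. -/
theorem finitelyBased_jacobianIdeal (hA : IsMalcev A)
    (h1 : ∀ u ∈ jacobianSubspace K A, ∀ v ∈ jacobianSubspace K A, ∀ w ∈ jacobianSubspace K A,
      ∀ z ∈ jacobianSubspace K A, ((u * v) * w) * z = 0)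
    (h2 : ∀ u ∈ jacobianSubspace K A, ∀ v ∈ jacobianSubspace K A, ∀ w ∈ jacobianSubspace K A,
      ∀ z ∈ jacobianSubspace K A, (u * v) * (w * z) = 0) :
    FinitelyBased K (jacobianIdeal K A) := by
  refine finitelyBased_of_class_three K _ ?_ ?_ ?_
  · rintro ⟨u, hu⟩
    exact Subtype.ext (hA.sq u)
  · rintro ⟨u, hu⟩ ⟨v, hv⟩ ⟨w, hw⟩ ⟨z, hz⟩
    exact Subtype.ext (h1 u hu v hv w hw z hz)
  · rintro ⟨u, hu⟩ ⟨v, hv⟩ ⟨w, hw⟩ ⟨z, hz⟩
    exact Subtype.ext (h2 u hu v hv w hw z hz)

end Jacobian

end Pool.Agent.Lib.MP_cad252_al.H89
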