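import Mathlib
import Pool.Agent.Lib.MP_cad252_al.H89.FreeMalcev

/-!
# In characteristic 3 the Jacobian ideal is spanned by the Jacobians
-/

namespace Pool.Agent.Lib.MP_cad252_al.H89

universe u v w

section

variable {A : Type v} [NonUnitalNonAssocRing A]

theorem IsMalcev.anticomm (hA : IsMalcev A) (a b : A) : a * b = -(b * a) := by
  have h := hA.sq (a + b)
  rw [add_mul, mul_add, mul_add, hA.sq, hA.sq, zero_add, add_zero] at h
  exact eq_neg_of_add_eq_zero_left h

/-- Linearised Malcev identity. -/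
theorem IsMalcev.lin (hA : IsMalcev A) (x y z t : A) :
    Jac x y (t * z) + Jac t y (x * z) = Jac x y z * t + Jac t y z * x := by
  have h := hA.malcev (x + t) y z
  have h1 := hA.malcev x y z
  have h2 := hA.malcev t y z
  simp only [Jac, mul_add, add_mul] at h h1 h2 ⊢
  have h3 : ∀ P Q R : A, P = Q → R = P - Q + R := by
    intro P Q R h; rw [h, sub_self, zero_add]
  rw [← sub_eq_zero] at h h1 h2 ⊢
  have h4 := congrArg₂ (· - ·) h (congrArg₂ (· + ·) h1 h2)
  simp only [add_zero, sub_zero] at h4
  rw [← h4]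
  abel

theorem IsMalcev.jac_mul_three (hA : IsMalcev A) (h3 : ∀ a : A, (3 : ℤ) • a = 0) (x y z w : A) :
    Jac x y z * w = Jac w x (y * z) + Jac w y (z * x) + Jac w z (x * y) := by
  have l1 := hA.lin x y z w
  have l2 := hA.lin y z x w
  have l3 := hA.lin z x y w
  have e1 : w * x = -(x * w) := hA.anticomm _ _
  have e2 : w * y = -(y * w) := hA.anticomm _ _
  have e3 : w * z = -(z * w) := hA.anticomm _ _
  have e4 : x * y = -(y * x) := hA.anticomm _ _
  have e5 : x * z = -(z * x) := hA.anticomm _ _
  have e6 : y * z = -(z * y) := hA.anticomm _ _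

  have g2 : ∀ a b : A, x * (a * b) = -((a * b) * x) := fun _ _ => hA.anticomm _ _
  have g3 : ∀ a b : A, y * (a * b) = -((a * b) * y) := fun _ _ => hA.anticomm _ _
  have g4 : ∀ a b : A, z * (a * b) = -((a * b) * z) := fun _ _ => hA.anticomm _ _
  have p1 : (x * w) * (z * y) = -((z * y) * (x * w)) := hA.anticomm _ _
  have p2 : (y * w) * (z * x) = -((z * x) * (y * w)) := hA.anticomm _ _
  have p3 : (y * x) * (z * w) = -((z * w) * (y * x)) := hA.anticomm _ _
  simp only [Jac, add_mul, e1, e2, e3, e4, e5, e6, neg_mul, mul_neg, neg_neg, g2, g3,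
    g4, p1, p2, p3] at l1 l2 l3 ⊢
  have hT := h3 ((-2 : ℤ) • (((y * x) * z) * w) + (-2 : ℤ) • (((z * y) * x) * w) +
    (2 : ℤ) • (((z * x) * y) * w) + (-1 : ℤ) • ((z * y) * (x * w)) +
    (-1 : ℤ) • (((z * y) * w) * x) + (1 : ℤ) • ((z * x) * (y * w)) +
    (1 : ℤ) • (((z * x) * w) * y) + (1 : ℤ) • ((z * w) * (y * x)) +
    (-1 : ℤ) • (((y * x) * w) * z))
  linear_combination (norm := module) (2 : ℤ) • (l1 + l2 + l3) + hT

end

section

variable (K : Type u) [Field K] (A : Type v) [NonUnitalNonAssocRing A] [Module K A]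
  [IsScalarTower K A A] [SMulCommClass K A A]

omit [SMulCommClass K A A] in
/-- In characteristic 3 the Jacobian ideal of a Malcev algebra is spanned by the Jacobians. -/
theorem jacobianSubspace_eq_span [CharP K 3] (hA : IsMalcev A) :
    jacobianSubspace K A = Submodule.span K {j | ∃ x y z : A, j = Jac x y z} := by
  have h3 : ∀ a : A, (3 : ℤ) • a = 0 := by
    intro a
    have h : ((3 : ℕ) : K) = 0 := CharP.cast_eq_zero K 3
    have h2 : ((3 : ℕ) : K) • a = 0 := by rw [h, zero_smul]
    rw [Nat.cast_smul_eq_nsmul] at h2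
    rw [show (3 : ℤ) = ((3 : ℕ) : ℤ) from rfl, natCast_zsmul]
    exact h2
  apply le_antisymm
  · refine jacobianSubspace_le K A _ (fun x y z => Submodule.subset_span ⟨x, y, z, rfl⟩) ?_
    have hr : ∀ a : A, ∀ x ∈ Submodule.span K {j | ∃ x y z : A, j = Jac x y z},
        x * a ∈ Submodule.span K {j | ∃ x y z : A, j = Jac x y z} := by
      intro a x hx
      induction hx using Submodule.span_induction with
      | mem x hx =>
        obtain ⟨p, q, r, rfl⟩ := hx
        rw [hA.jac_mul_three h3]
        exact Submodule.add_mem _ (Submodule.add_mem _ (Submodule.subset_span ⟨_, _, _, rfl⟩)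
          (Submodule.subset_span ⟨_, _, _, rfl⟩)) (Submodule.subset_span ⟨_, _, _, rfl⟩)
      | zero => rw [zero_mul]; exact Submodule.zero_mem _
      | add x y _ _ hx hy => rw [add_mul]; exact Submodule.add_mem _ hx hy
      | smul c x _ hx => rw [smul_mul_assoc]; exact Submodule.smul_mem _ _ hx
    intro a x hx
    refine ⟨?_, hr a x hx⟩
    rw [hA.anticomm]
    exact Submodule.neg_mem _ (hr a x hx)
  · refine Submodule.span_le.2 ?_
    rintro _ ⟨x, y, z, rfl⟩
    exact Jac_mem K A x y z

/-- Multilinear vanishing on Jacobians extends to the Jacobian ideal: the form needed for the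
finite basis theorem. -/
theorem finitelyBased_of_jacobians [CharP K 3] (hA : IsMalcev A)
    (h1 : ∀ a b c d e f g h i j k l : A,
      ((Jac a b c * Jac d e f) * Jac g h i) * Jac j k l = 0)
    (h2 : ∀ a b c d e f g h i j k l : A,
      (Jac a b c * Jac d e f) * (Jac g h i * Jac j k l) = 0) :
    FinitelyBased K (jacobianIdeal K A) := by
  have key : ∀ (F : A → A → A → A → A)
      (_ : ∀ x y : A, ∀ v w z, F (x + y) v w z = F x v w z + F y v w z)
      (_ : ∀ x y : A, ∀ u w z, F u (x + y) w z = F u x w z + F u y w z)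
      (_ : ∀ x y : A, ∀ u v z, F u v (x + y) z = F u v x z + F u v y z)
      (_ : ∀ x y : A, ∀ u v w, F u v w (x + y) = F u v w x + F u v w y)
      (_ : ∀ (c : K) (x : A), ∀ v w z, F (c • x) v w z = c • F x v w z)
      (_ : ∀ (c : K) (x : A), ∀ u w z, F u (c • x) w z = c • F u x w z)
      (_ : ∀ (c : K) (x : A), ∀ u v z, F u v (c • x) z = c • F u v x z)
      (_ : ∀ (c : K) (x : A), ∀ u v w, F u v w (c • x) = c • F u v w x)
      (_ : ∀ a b c d e f g h i j k l : A, F (Jac a b c) (Jac d e f) (Jac g h i) (Jac j k l) = 0),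
      ∀ u ∈ jacobianSubspace K A, ∀ v ∈ jacobianSubspace K A, ∀ w ∈ jacobianSubspace K A,
        ∀ z ∈ jacobianSubspace K A, F u v w z = 0 := by
    intro F a1 a2 a3 a4 s1 s2 s3 s4 h0
    rw [jacobianSubspace_eq_span K A hA]
    have z1 : ∀ v w z, F 0 v w z = 0 := fun v w z => by
      have := s1 0 0 v w z; rwa [zero_smul, zero_smul] at this
    have z2 : ∀ u w z, F u 0 w z = 0 := fun v w z => by
      have := s2 0 0 v w z; rwa [zero_smul, zero_smul] at this
    have z3 : ∀ u v z, F u v 0 z = 0 := fun v w z => by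
      have := s3 0 0 v w z; rwa [zero_smul, zero_smul] at this
    have z4 : ∀ u v w, F u v w 0 = 0 := fun v w z => by
      have := s4 0 0 v w z; rwa [zero_smul, zero_smul] at this
    intro u hu
    induction hu using Submodule.span_induction with
    | zero => intros; exact z1 _ _ _
    | add x y _ _ hx hy =>
      intro v hv w hw z hz
      rw [a1, hx v hv w hw z hz, hy v hv w hw z hz, add_zero]
    | smul c x _ hx =>
      intro v hv w hw z hz
      rw [s1, hx v hv w hw z hz, smul_zero]
    | mem u hu =>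
    obtain ⟨p1, p2, p3, rfl⟩ := hu
    intro v hv
    induction hv using Submodule.span_induction with
    | zero => intros; exact z2 _ _ _
    | add x y _ _ hx hy =>
      intro w hw z hz
      rw [a2, hx w hw z hz, hy w hw z hz, add_zero]
    | smul c x _ hx =>
      intro w hw z hz
      rw [s2, hx w hw z hz, smul_zero]
    | mem v hv =>
    obtain ⟨q1, q2, q3, rfl⟩ := hv
    intro w hw
    induction hw using Submodule.span_induction with
    | zero => intros; exact z3 _ _ _
    | add x y _ _ hx hy =>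
      intro z hz
      rw [a3, hx z hz, hy z hz, add_zero]
    | smul c x _ hx =>
      intro z hz
      rw [s3, hx z hz, smul_zero]
    | mem w hw =>
    obtain ⟨r1, r2, r3, rfl⟩ := hw
    intro z hz
    induction hz using Submodule.span_induction with
    | zero => exact z4 _ _ _
    | add x y _ _ hx hy => rw [a4, hx, hy, add_zero]
    | smul c x _ hx => rw [s4, hx, smul_zero]
    | mem z hz =>
    obtain ⟨t1, t2, t3, rfl⟩ := hz
    exact h0 _ _ _ _ _ _ _ _ _ _ _ _
  refine finitelyBased_jacobianIdeal K A hA ?_ ?_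
  · refine key (fun u v w z => ((u * v) * w) * z) ?_ ?_ ?_ ?_ ?_ ?_ ?_ ?_ h1 <;> intros <;>
      simp only [add_mul, mul_add, smul_mul_assoc, mul_smul_comm]
  · refine key (fun u v w z => (u * v) * (w * z)) ?_ ?_ ?_ ?_ ?_ ?_ ?_ ?_ h2 <;> intros <;>
      simp only [add_mul, mul_add, smul_mul_assoc, mul_smul_comm]

end

end Pool.Agent.Lib.MP_cad252_al.H89
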